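import Pool.Agent.TH742.HP.Dist

set_option autoImplicit false

/-!
No `α ≤ 1 - 1/(2t)` is good for `t`: two antipodal independent intervals of length
`q + 1` in `C_n^k`, where `k = tq` and `n = 2(q + 1 + k)`.
-/

namespace Pool.Agent.R795.HamPow

open Pool.Agent.TH742.HP

/-- The `t`-th power of a Hamilton cycle has no independent set with more than `n/(t+1)`
vertices. -/
lemma packing {n t : ℕ} [NeZero n] (ht : t + 1 ≤ n) (H : SimpleGraph (ZMod n))
    (hH : HasHamPow t H) (I : Finset (ZMod n)) (hI : ∀ x ∈ I, ∀ y ∈ I, ¬ H.Adj x y) :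
    I.card * (t + 1) ≤ n := by
  classical
  obtain ⟨e, he⟩ := hH
  set P : Finset (ZMod n) := I.map e.symm.toEmbedding with hP
  have hPc : P.card = I.card := by rw [hP, Finset.card_map]
  have hPm : ∀ x ∈ P, e x ∈ I := by
    intro x hx
    rw [hP, Finset.mem_map] at hx
    obtain ⟨y, hy, rfl⟩ := hx
    simpa using hy
  have hinj : Set.InjOn (fun p : ZMod n × ℕ => p.1 + (p.2 : ZMod n))
      ((P ×ˢ Finset.range (t + 1) : Finset (ZMod n × ℕ)) : Set (ZMod n × ℕ)) := by
    rintro ⟨x, a⟩ hx ⟨y, b⟩ hy h
    simp only [Finset.coe_product, Set.mem_prod, Finset.mem_coe, Finset.mem_range] at hx hy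
    dsimp only at h
    have hxy : x = y := by
      by_contra hne
      have h1 : y = x + (((a : ℤ) - b : ℤ) : ZMod n) := by
        push_cast
        have : x + (a : ZMod n) = y + b := h
        linear_combination -this
      have h2 : cdist x y ≤ t := by
        rw [h1]
        refine le_trans (cdist_add_int_le x _) ?_
        omega
      exact hI _ (hPm x hx.1) _ (hPm y hy.1) (he x y hne h2)
    subst hxy
    have h3 : (a : ZMod n) = b := add_left_cancel h
    have h4 := congrArg ZMod.val h3
    rw [ZMod.val_natCast_of_lt (by omega), ZMod.val_natCast_of_lt (by omega)] at h4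
    rw [h4]
  have h5 : (P ×ˢ Finset.range (t + 1)).card ≤ (Finset.univ : Finset (ZMod n)).card := by
    rw [← Finset.card_image_of_injOn hinj]
    exact Finset.card_le_card (Finset.subset_univ _)
  rw [Finset.card_product, Finset.card_range, Finset.card_univ, ZMod.card, hPc] at h5
  exact h5

/-- No `α ≤ 1 - 1/(2t)` is good for `t`. -/
theorem lower (t : ℕ) (ht : 1 ≤ t) (α : ℝ) (hα : α ≤ 1 - 1 / (2 * (t : ℝ))) : ¬ Good t α := by
  classical
  rintro ⟨k₀, hk⟩
  have ht' : (1 : ℝ) ≤ t := by exact_mod_cast ht
  set q : ℕ := k₀ + 1 with hq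
  set k : ℕ := t * q with hkdef
  have hqk : q ≤ k := by rw [hkdef]; exact Nat.le_mul_of_pos_left q ht
  have htk : t ≤ k := by rw [hkdef]; exact Nat.le_mul_of_pos_right t (by omega)
  set n : ℕ := 2 * (q + 1 + k) with hn
  have : NeZero n := ⟨by omega⟩
  set F₀ : Finset ℕ := Finset.range (q + 1) with hF₀
  set F₁ : Finset ℕ := Finset.Ico (q + 1 + k) (q + 1 + k + (q + 1)) with hF₁
  have hF : ∀ m ∈ F₀ ∪ F₁, m < n := by
    intro m hm
    rw [Finset.mem_union, hF₀, hF₁, Finset.mem_range, Finset.mem_Ico] at hm
    omega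
  have hcinj : Set.InjOn (fun m : ℕ => (m : ZMod n)) ((F₀ ∪ F₁ : Finset ℕ) : Set ℕ) := by
    intro a ha b hb h
    have h4 := congrArg ZMod.val h
    dsimp only at h4
    rw [ZMod.val_natCast_of_lt (hF a ha), ZMod.val_natCast_of_lt (hF b hb)] at h4
    exact h4
  set I : Finset (ZMod n) := (F₀ ∪ F₁).image (fun m : ℕ => (m : ZMod n)) with hI
  have hIval : ∀ x ∈ I, x.val ∈ F₀ ∪ F₁ := by
    intro x hx
    rw [hI, Finset.mem_image] at hx
    obtain ⟨m, hm, rfl⟩ := hx
    rw [ZMod.val_natCast_of_lt (hF m hm)]
    exact hm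
  have hIcard : I.card = 2 * (q + 1) := by
    rw [hI, Finset.card_image_of_injOn hcinj, Finset.card_union_of_disjoint, hF₀, hF₁,
      Finset.card_range, Nat.card_Ico]
    · omega
    · rw [Finset.disjoint_left]
      intro a ha hb
      rw [hF₀, Finset.mem_range] at ha
      rw [hF₁, Finset.mem_Ico] at hb
      omega
  set G := cyclePow n k with hG
  let H : SimpleGraph (ZMod n) :=
    { Adj := fun x y => G.Adj x y ∧ ¬ (x ∈ I ∧ y ∈ I)
      symm := ⟨fun x y h => ⟨h.1.symm, fun h' => h.2 ⟨h'.2, h'.1⟩⟩⟩
      loopless := ⟨fun x h => G.loopless.irrefl x h.1⟩ }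
  have hHam : HasHamPow t H := by
    refine hk k n (by omega) (by omega) (by omega) H ⟨fun x y h => h.1, fun v => ?_⟩
    have hdeg : 2 * k ≤ (G.neighborSet v).ncard := two_mul_le_deg (by omega) v
    have hdeg' : 2 * (k : ℝ) ≤ ((G.neighborSet v).ncard : ℝ) := by exact_mod_cast hdeg
    have hα' : α * ((G.neighborSet v).ncard : ℝ) ≤
        (1 - 1 / (2 * (t : ℝ))) * ((G.neighborSet v).ncard : ℝ) :=
      mul_le_mul_of_nonneg_right hα (Nat.cast_nonneg _)
    refine le_trans hα' ?_
    -- the missing neighbours
    have hmiss : (G.neighborSet v).ncard ≤ (H.neighborSet v).ncard + q := by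
      by_cases hv : v ∈ I
      · have hsub : G.neighborSet v \ H.neighborSet v ⊆
            ((((if v.val ∈ F₀ then F₀ else F₁).image (fun m : ℕ => (m : ZMod n))).erase v :
              Finset (ZMod n)) : Set (ZMod n)) := by
          rintro w ⟨hw1, hw2⟩
          have hwI : w ∈ I := by
            by_contra hwI
            exact hw2 ⟨hw1, fun h => hwI h.2⟩
          have hne : w ≠ v := fun h => hw1.1 h.symm
          rw [Finset.mem_coe, Finset.mem_erase]
          refine ⟨hne, ?_⟩
          rw [Finset.mem_image]
          refine ⟨w.val, ?_, ZMod.natCast_zmod_val w⟩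
          have hvv := hIval v hv
          have hww := hIval w hwI
          obtain ⟨d, hd, hwd⟩ := exists_int v w
          have hd2 : d.natAbs ≤ k := le_trans hd hw1.2
          have hdvd : (n : ℤ) ∣ ((v.val : ℤ) + d - w.val) := by
            rw [← ZMod.intCast_zmod_eq_zero_iff_dvd]
            push_cast
            rw [ZMod.natCast_zmod_val, ZMod.natCast_zmod_val, ← hwd, sub_self]
          rw [Finset.mem_union, hF₀, hF₁, Finset.mem_range, Finset.mem_Ico] at hvv hww
          have hv0 : v.val < n := ZMod.val_lt v
          have hw0 : w.val < n := ZMod.val_lt w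
          split_ifs with hif
          · rw [hF₀, Finset.mem_range] at hif ⊢
            by_contra hcon
            have hw3 : q + 1 + k ≤ w.val ∧ w.val < q + 1 + k + (q + 1) := by omega
            have h6 : (v.val : ℤ) + d - w.val < 0 := by omega
            have h7 : -(n : ℤ) < (v.val : ℤ) + d - w.val := by omega
            have h8 := Int.eq_zero_of_abs_lt_dvd hdvd (by rw [abs_lt]; constructor <;> omega)
            omega
          · rw [hF₀, Finset.mem_range] at hif
            rw [hF₁, Finset.mem_Ico]
            by_contra hcon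
            have hw3 : w.val < q + 1 := by omega
            have hv3 : q + 1 + k ≤ v.val ∧ v.val < q + 1 + k + (q + 1) := by omega
            have h6 : 0 < (v.val : ℤ) + d - w.val := by omega
            have h7 : (v.val : ℤ) + d - w.val < n := by omega
            have h8 := Int.eq_zero_of_abs_lt_dvd hdvd (by rw [abs_lt]; constructor <;> omega)
            omega
        have hc1 := Set.ncard_le_ncard hsub (Set.toFinite _)
        rw [Set.ncard_coe_finset] at hc1
        have hvmem : v ∈ ((if v.val ∈ F₀ then F₀ else F₁).image (fun m : ℕ => (m : ZMod n))) := by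
          rw [Finset.mem_image]
          refine ⟨v.val, ?_, ZMod.natCast_zmod_val v⟩
          have hvv := hIval v hv
          rw [Finset.mem_union] at hvv
          split_ifs with hif
          · exact hif
          · exact hvv.resolve_left hif
        rw [Finset.card_erase_of_mem hvmem] at hc1
        have hc2 : ((if v.val ∈ F₀ then F₀ else F₁).image (fun m : ℕ => (m : ZMod n))).card ≤
            q + 1 := by
          refine le_trans Finset.card_image_le ?_
          split_ifs
          · rw [hF₀, Finset.card_range]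
          · rw [hF₁, Nat.card_Ico]; omega
        have hc3 := Set.ncard_le_ncard_sdiff_add_ncard (G.neighborSet v) (H.neighborSet v)
          (Set.toFinite _)
        omega
      · have : G.neighborSet v ⊆ H.neighborSet v := fun w hw => ⟨hw, fun h => hv h.1⟩
        have := Set.ncard_le_ncard this (Set.toFinite _)
        omega
    have hmiss' : ((G.neighborSet v).ncard : ℝ) ≤ ((H.neighborSet v).ncard : ℝ) + q := by
      exact_mod_cast hmiss
    have hkq : (k : ℝ) = t * q := by rw [hkdef]; push_cast; ring
    have h9 : (q : ℝ) ≤ 1 / (2 * (t : ℝ)) * ((G.neighborSet v).ncard : ℝ) := by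
      have h10 : (q : ℝ) = 1 / (2 * (t : ℝ)) * (2 * k) := by
        rw [hkq]; field_simp
      rw [h10]
      exact mul_le_mul_of_nonneg_left hdeg' (by positivity)
    linarith
  have h11 := packing (t := t) (by omega) H hHam I (fun x hx y hy h => h.2 ⟨hx, hy⟩)
  rw [hIcard, hn] at h11
  have h12 : 2 * (q + 1) * (t + 1) = 2 * (q + 1) + 2 * (t * q) + 2 * t := by ring
  rw [h12, hkdef] at h11
  omega

end Pool.Agent.R795.HamPow
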